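import Pool.Agent.helper54.UG.Spec

/-!
# Row ug:R1 (MP_a2a22c_al): the case of an element of rank one
-/

set_option autoImplicit false

namespace Pool.Agent.UG

open Matrix Pool.Agent.H48SL

theorem R1_mul {n : ℕ} (e φ : Fin n → ℚ) (Y : MQ n) :
    vecMulVec e φ * Y * vecMulVec e φ = (φ ⬝ᵥ (Y *ᵥ e)) • vecMulVec e φ := by
  rw [vecMulVec_mul, vecMulVec_mul_vecMulVec, ← dotProduct_mulVec]
  ext i j
  simp only [vecMulVec_apply, Matrix.smul_apply, Pi.smul_apply, smul_eq_mul]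
  try ring

theorem R1_zero {n : ℕ} (𝔞 : Submodule ℚ (MQ n)) (hA : ANil 𝔞) (e φ : Fin n → ℚ)
    (hX : vecMulVec e φ ∈ 𝔞) (hX0 : vecMulVec e φ ≠ 0) (Y : MQ n) (hY : Y ∈ 𝔞) (j : ℕ) :
    φ ⬝ᵥ ((Y ^ j) *ᵥ e) = 0 := by
  obtain ⟨N, hN⟩ := hA
  set c := φ ⬝ᵥ ((Y ^ j) *ᵥ e) with hc
  have h1 : ∀ r : ℕ, (vecMulVec e φ * Y ^ j) ^ r * vecMulVec e φ = c ^ r • vecMulVec e φ := by
    intro r
    induction r with
    | zero => rw [pow_zero, pow_zero, one_mul, one_smul]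
    | succ r ih =>
      rw [pow_succ', mul_assoc, ih, mul_smul_comm, R1_mul, smul_smul, ← hc, pow_succ]
  have h2 := hN ((List.replicate N (vecMulVec e φ :: List.replicate j Y)).flatten ++
    [vecMulVec e φ]) (by
      intro Z hZ
      rw [List.mem_append] at hZ
      rcases hZ with hZ | hZ
      · rw [List.mem_flatten] at hZ
        obtain ⟨l, hl, hZl⟩ := hZ
        rw [List.eq_of_mem_replicate hl] at hZl
        rcases List.mem_cons.1 hZl with h | h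
        · rw [h]; exact hX
        · rw [List.eq_of_mem_replicate h]; exact hY
      · rw [List.mem_singleton.1 hZ]; exact hX) (by
      rw [List.length_append, List.length_flatten, List.map_replicate, List.sum_replicate]
      simp only [List.length_cons, List.length_replicate, smul_eq_mul]
      nlinarith)
  rw [List.prod_append, List.prod_flatten, List.map_replicate, List.prod_replicate, List.prod_cons,
    List.prod_replicate, List.prod_singleton, h1] at h2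
  rcases smul_eq_zero.1 h2 with h | h
  · by_contra hc0
    exact pow_ne_zero N hc0 h
  · exact absurd h hX0

theorem R1_exp {n : ℕ} (Z : MQ n) (h : Z * Z = 0) : IsNilpotent.exp Z = 1 + Z := by
  have h2 : Z ^ 2 = 0 := by rw [pow_two, h]
  rw [IsNilpotent.exp_eq_sum h2, Finset.sum_range_succ, Finset.sum_range_one]
  simp

theorem R1 (hEXJ : EXJ_stmt) : R1_stmt := by
  intro n hn H hD 𝔞 hA hL hS hN
  unfold NoR1 at hN
  push Not at hN
  obtain ⟨e, φ, hX, hX0⟩ := hN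
  have hz := R1_zero 𝔞 hA e φ hX hX0
  have he0 : e ≠ 0 := by
    rintro rfl
    apply hX0
    ext i j
    simp [vecMulVec_apply]
  have hφ0 : φ ≠ 0 := by
    rintro rfl
    apply hX0
    ext i j
    simp [vecMulVec_apply]
  have hφe : φ ⬝ᵥ e = 0 := by
    have := hz _ hX 0
    rwa [pow_zero, one_mulVec] at this
  obtain ⟨k, hk, h, hhH, hh⟩ := hL _ hX
  have hXX : vecMulVec e φ * vecMulVec e φ = 0 := by
    have := R1_mul e φ (1 : MQ n)
    rwa [mul_one, one_mulVec, hφe, zero_smul] at this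
  have hh' : qg h = 1 + (k : ℚ) • vecMulVec e φ := by
    rw [hh, R1_exp]
    rw [smul_mul_smul_comm, hXX, smul_zero]
  have hpow : ∀ M : ℕ, qg (h ^ M) = 1 + ((M : ℚ) * k) • vecMulVec e φ := by
    intro M
    induction M with
    | zero => rw [pow_zero, qg_one, Nat.cast_zero, zero_mul, zero_smul, add_zero]
    | succ M ih =>
      rw [pow_succ, qg_mul, ih, hh', mul_add, mul_one, add_mul, one_mul, smul_mul_smul_comm, hXX,
        smul_zero, add_zero, add_assoc, ← add_smul]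
      congr 2
      push_cast
      ring
  obtain ⟨N₁, e₁, hN₁, he₁⟩ := clear_denom e
  obtain ⟨N₂, φ₁, hN₂, hφ₁⟩ := clear_denom φ
  set M : ℕ := ((N₁ * N₂) ^ 2).toNat with hM
  have hMc : ((M : ℕ) : ℤ) = (N₁ * N₂) ^ 2 := Int.toNat_of_nonneg (sq_nonneg _)
  have hMq : ((M : ℕ) : ℚ) = ((N₁ : ℚ) * N₂) ^ 2 := by
    have := congrArg (fun x : ℤ => (x : ℚ)) hMc
    push_cast at this
    exact this
  set φ₂ : Fin n → ℤ := ((k : ℤ) * N₁ * N₂) • φ₁ with hφ₂
  have hφ₂c : castV φ₂ = ((k : ℚ) * N₁ * N₂ * N₂) • φ := by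
    have h3 : castV φ₂ = ((k : ℚ) * N₁ * N₂) • castV φ₁ := by
      ext i
      simp [castV, hφ₂]
    rw [h3, hφ₁, smul_smul]
  have hk0 : (k : ℚ) ≠ 0 := by exact_mod_cast (Nat.one_le_iff_ne_zero.1 hk)
  have hN₁q : (N₁ : ℚ) ≠ 0 := by exact_mod_cast hN₁
  have hN₂q : (N₂ : ℚ) ≠ 0 := by exact_mod_cast hN₂
  have hcq : ((k : ℚ) * N₁ * N₂ * N₂) ≠ 0 :=
    mul_ne_zero (mul_ne_zero (mul_ne_zero hk0 hN₁q) hN₂q) hN₂q
  have hcast_dot : ∀ a b : Fin n → ℤ, ((a ⬝ᵥ b : ℤ) : ℚ) = castV a ⬝ᵥ castV b := by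
    intro a b
    simp [castV, dotProduct]
  have hd : φ₂ ⬝ᵥ e₁ = 0 := by
    have h3 : ((φ₂ ⬝ᵥ e₁ : ℤ) : ℚ) = 0 := by
      rw [hcast_dot, hφ₂c, he₁, smul_dotProduct, dotProduct_smul, hφe, smul_zero, smul_zero]
    exact_mod_cast h3
  have hztv : h ^ M = tv e₁ φ₂ := by
    apply qg_inj
    rw [hpow, qg_tv hd, hφ₂c, he₁]
    congr 1
    ext i j
    simp only [vecMulVec_apply, Matrix.smul_apply, Pi.smul_apply, smul_eq_mul]
    rw [hMq]
    ring
  have hzH : h ^ M ∈ H := H.pow_mem hhH M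
  have hz1 : h ^ M ≠ 1 := by
    intro h3
    have h4 := hpow M
    rw [h3, qg_one] at h4
    have h5 : ((M : ℚ) * k) • vecMulVec e φ = 0 := by
      have := h4.symm
      rwa [add_eq_left] at this
    rcases smul_eq_zero.1 h5 with h6 | h6
    · rw [hMq] at h6
      exact mul_ne_zero (pow_ne_zero 2 (mul_ne_zero hN₁q hN₂q)) hk0 h6
    · exact hX0 h6
  -- `u` and `Y`
  obtain ⟨u, hu⟩ : ∃ u : Fin n → ℚ, φ ⬝ᵥ u ≠ 0 := by
    by_contra hcon
    push Not at hcon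
    apply hφ0
    exact dotProduct_eq_zero φ hcon
  obtain ⟨Y, hYA, hY0, hYu⟩ := hS u
  obtain ⟨m, hm, g, hgH, hg⟩ := hL Y hYA
  have hm0 : (m : ℚ) ≠ 0 := by exact_mod_cast (Nat.one_le_iff_ne_zero.1 hm)
  have hmY : (m : ℚ) • Y ∈ 𝔞 := 𝔞.smul_mem _ hYA
  have hnil : IsNilpotent ((m : ℚ) • Y) := hA.nil hmY
  have hge : φ ⬝ᵥ (qg g *ᵥ e) = 0 := by
    obtain ⟨r, hr⟩ := hnil
    rw [hg, IsNilpotent.exp_eq_sum hr, Matrix.sum_mulVec, dotProduct_sum]
    apply Finset.sum_eq_zero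
    intro i _
    rw [smul_mulVec, dotProduct_smul, hz _ hmY i, smul_zero]
  have hsmall : |φ₂ ⬝ᵥ ((g : Matrix (Fin n) (Fin n) ℤ) *ᵥ e₁)| ≤ 2 := by
    have h3 : ((φ₂ ⬝ᵥ ((g : Matrix (Fin n) (Fin n) ℤ) *ᵥ e₁) : ℤ) : ℚ) = 0 := by
      rw [hcast_dot, ← qg_mulVec_castV, hφ₂c, he₁, mulVec_smul, smul_dotProduct, dotProduct_smul,
        hge, smul_zero, smul_zero]
    have h4 : φ₂ ⬝ᵥ ((g : Matrix (Fin n) (Fin n) ℤ) *ᵥ e₁) = 0 := by exact_mod_cast h3
    rw [h4]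
    norm_num
  obtain ⟨Ja, -, -, -, Je, -⟩ := hEXJ n _ hnil
  have hmYu : ((m : ℚ) • Y) *ᵥ u = 0 := by rw [smul_mulVec, hYu, smul_zero]
  have hgu : qg g *ᵥ u = u := by rw [hg]; exact Je u hmYu
  have hgau : ∀ a : ℕ, qg (g ^ a) *ᵥ u = u := by
    intro a
    induction a with
    | zero => rw [pow_zero, qg_one, one_mulVec]
    | succ a ih => rw [pow_succ, qg_mul, ← mulVec_mulVec, hgu, ih]
  refine (final_coef (by rw [Fintype.card_fin]; exact hn) H e₁ φ₂ (h ^ M) g hzH hgH hz1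
    (by rw [hztv]; exact tv_coe hd) hsmall (Or.inr ?_)).1 hD
  intro a ha b hab
  have hb : b = 0 := by
    have h3 := hgau a
    rw [hab, hztv, ← tv_zsmul_right hd, qg_tv (by rw [smul_dotProduct, hd, smul_zero]), add_mulVec,
      one_mulVec, add_eq_left, vecMulVec_mulVec] at h3
    have h4 : castV (b • φ₂) = ((b : ℚ) * ((k : ℚ) * N₁ * N₂ * N₂)) • φ := by
      have h5 : castV (b • φ₂) = (b : ℚ) • castV φ₂ := by
        ext i
        simp [castV]
      rw [h5, hφ₂c, smul_smul]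
    rw [h4, smul_dotProduct, he₁] at h3
    by_contra hb0
    have hbq : (b : ℚ) ≠ 0 := by exact_mod_cast hb0
    have h6 : ∃ i, e i ≠ 0 := by
      by_contra hcon
      push Not at hcon
      exact he0 (funext hcon)
    obtain ⟨i, hi⟩ := h6
    have h7 := congrFun h3 i
    simp only [Pi.smul_apply, smul_eq_mul, Pi.zero_apply, MulOpposite.smul_eq_mul_unop,
      MulOpposite.unop_op] at h7
    have h8 : (N₁ : ℚ) * e i * ((b : ℚ) * ((k : ℚ) * N₁ * N₂ * N₂) * (φ ⬝ᵥ u)) ≠ 0 :=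
      mul_ne_zero (mul_ne_zero hN₁q hi) (mul_ne_zero (mul_ne_zero hbq hcq) hu)
    exact h8 h7
  rw [hb, zpow_zero] at hab
  have h3 : qg (g ^ a) = 1 := by rw [hab, qg_one]
  rw [qg_pow, hg, Ja a] at h3
  have hnil2 : IsNilpotent ((a : ℚ) • (m : ℚ) • Y) := hA.nil (𝔞.smul_mem _ hmY)
  obtain ⟨-, -, -, Jd, -⟩ := hEXJ n _ hnil2
  have h4 := Jd h3
  have ha0 : (a : ℚ) ≠ 0 := by exact_mod_cast (Nat.one_le_iff_ne_zero.1 ha)
  rcases smul_eq_zero.1 h4 with h5 | h5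
  · exact ha0 h5
  · rcases smul_eq_zero.1 h5 with h6 | h6
    · exact hm0 h6
    · exact hY0 h6

end Pool.Agent.UG
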