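import Pool.Agent.helper54.UG.Spec2

/-!
# Row ug:KSS (MP_a2a22c_al): the subspace for the symplectic group
-/

set_option autoImplicit false

namespace Pool.Agent.UG

open Matrix Pool.Agent.H48SL

theorem KSS_exp {n : ℕ} (Z : MQ n) (h : Z * Z = 0) : IsNilpotent.exp Z = 1 + Z := by
  have h2 : Z ^ 2 = 0 := by rw [pow_two, h]
  rw [IsNilpotent.exp_eq_sum h2, Finset.sum_range_succ, Finset.sum_range_one]
  simp

theorem KSS_ext {n : ℕ} {M N : MQ n} (h : ∀ s : Fin n → ℚ, M *ᵥ s = N *ᵥ s) : M = N := by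
  apply Matrix.toLin'.injective
  apply LinearMap.ext
  intro s
  rw [Matrix.toLin'_apply, Matrix.toLin'_apply]
  exact h s

theorem KSS_ex {n : ℕ} {K : Type} [Field K] [Algebra ℚ K] (f : K →ₐ[ℚ] MQ n)
    (ω : (Fin n → ℚ) →ₗ[ℚ] K) (v : Fin n → ℚ) (c : K) :
    ∃ X : MQ n, ∀ s, X *ᵥ s = f (c * ω s) *ᵥ v := by
  let L : (Fin n → ℚ) →ₗ[ℚ] (Fin n → ℚ) :=
    { toFun := fun s => f (c * ω s) *ᵥ v
      map_add' := fun s t => by rw [map_add, mul_add, map_add, add_mulVec]
      map_smul' := fun q s => by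
        rw [map_smul, mul_smul_comm, map_smul, smul_mulVec, RingHom.id_apply] }
  refine ⟨LinearMap.toMatrix' L, fun s => ?_⟩
  rw [LinearMap.toMatrix'_mulVec]
  rfl

theorem KSS : KSS_stmt := by
  intro n K _ _ _ f ω H hK hS
  set v : Fin (n + 1) → ℚ := e0 n with hv
  have hv0 : v ≠ 0 := by
    intro h
    have := congrFun h 0
    rw [hv] at this
    simp [e0] at this
  let 𝔟 : Submodule ℚ (MQ (n + 1)) :=
    { carrier := {X | ∃ c : K, ∀ s, X *ᵥ s = f (c * ω v s) *ᵥ v}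
      zero_mem' := ⟨0, fun s => by rw [zero_mul, map_zero, zero_mulVec, zero_mulVec]⟩
      add_mem' := by
        rintro X Y ⟨c, hc⟩ ⟨d, hd⟩
        exact ⟨c + d, fun s => by rw [add_mulVec, hc, hd, add_mul, map_add, add_mulVec]⟩
      smul_mem' := by
        rintro q X ⟨c, hc⟩
        exact ⟨q • c, fun s => by rw [smul_mulVec, hc, smul_mul_assoc, map_smul, smul_mulVec]⟩ }
  have hmem : ∀ X, X ∈ 𝔟 ↔ ∃ c : K, ∀ s, X *ᵥ s = f (c * ω v s) *ᵥ v := fun X => Iff.rfl
  have hmul : ∀ X ∈ 𝔟, ∀ Y ∈ 𝔟, X * Y = 0 := by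
    intro X hX Y hY
    obtain ⟨c, hc⟩ := (hmem X).1 hX
    obtain ⟨d, hd⟩ := (hmem Y).1 hY
    apply KSS_ext
    intro s
    rw [← mulVec_mulVec, hd, hc, hS.lin, hS.alt, mul_zero, mul_zero, map_zero, zero_mulVec,
      zero_mulVec]
  refine ⟨𝔟, ⟨?_, ?_, ?_, ?_⟩⟩
  · intro X hX
    obtain ⟨c, hc⟩ := (hmem X).1 hX
    have h1 := hc v
    rw [hS.alt, mul_zero, map_zero, zero_mulVec] at h1
    exact h1
  · refine ⟨2, fun l hl h2 => ?_⟩
    match l, hl, h2 with
    | [], _, h2 => simp at h2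
    | [X], _, h2 => simp at h2
    | X :: Y :: l', hl, _ =>
      rw [List.prod_cons, List.prod_cons, ← mul_assoc,
        hmul X (hl X List.mem_cons_self) Y (hl Y (List.mem_cons_of_mem _ List.mem_cons_self)),
        zero_mul]
  · intro X hX
    obtain ⟨c, hc⟩ := (hmem X).1 hX
    obtain ⟨k, hk, h, hh, hhs⟩ := hS.mem v c
    refine ⟨k, hk, h, hh, ?_⟩
    rw [KSS_exp _ (by rw [smul_mul_smul_comm, hmul X hX X hX, smul_zero])]
    apply KSS_ext
    intro s
    rw [hhs, add_mulVec, one_mulVec, smul_mulVec, hc]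
  · -- the star property
    have key : ∀ c : K, c ≠ 0 → ∀ X : MQ (n + 1), (∀ s, X *ᵥ s = f (c * ω v s) *ᵥ v) →
        dn X ≠ 0 := by
      intro c hc0 X hX hdn
      have h0 : ∀ i, X i 0 = 0 := by
        have h1 := hX v
        rw [hS.alt, mul_zero, map_zero, zero_mulVec] at h1
        exact (kill_iff X).1 h1
      have h1 : ∀ (i j), X (Fin.succ i) j = 0 := by
        intro i j
        refine Fin.cases (h0 _) (fun j => ?_) j
        exact congrFun (congrFun hdn i) j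
      have h2 : ∀ (s : Fin (n + 1) → ℚ) (i : Fin n), (X *ᵥ s) i.succ = 0 := by
        intro s i
        rw [mulVec, dotProduct]
        exact Finset.sum_eq_zero fun j _ => by rw [h1, zero_mul]
      obtain ⟨s₀, hs₀⟩ := hS.nondeg v hv0
      have h3 : ∀ (a : K) (i : Fin n), (f a *ᵥ v) i.succ = 0 := by
        intro a i
        have h4 := h2 (f (a * (c * ω v s₀)⁻¹) *ᵥ s₀) i
        rw [hX, hS.lin] at h4
        have h5 : c * (a * (c * ω v s₀)⁻¹ * ω v s₀) = a := by
          field_simp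
        rwa [h5] at h4
      have h6 : ∀ a : K, f a *ᵥ v = (f a 0 0) • v := by
        intro a
        ext i
        refine Fin.cases ?_ (fun i => ?_) i
        · rw [hv, mulVec_e0, Pi.smul_apply, e0, Pi.single_eq_same, smul_eq_mul, mul_one]
        · rw [h3, Pi.smul_apply, hv, e0, Pi.single_eq_of_ne (Fin.succ_ne_zero i), smul_zero]
      have h7 : Module.finrank ℚ K ≤ 1 := by
        refine finrank_le_one (1 : K) fun a => ⟨f a 0 0, ?_⟩
        by_contra hne
        have h8 : a - (f a 0 0) • (1 : K) ≠ 0 := fun h => hne (sub_eq_zero.1 h).symm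
        have h9 : f (a - (f a 0 0) • (1 : K)) *ᵥ v = 0 := by
          rw [map_sub, map_smul, map_one, sub_mulVec, smul_mulVec, one_mulVec, h6, sub_self]
        have h10 := congrArg (fun w => f (a - (f a 0 0) • (1 : K))⁻¹ *ᵥ w) h9
        simp only [mulVec_mulVec, mulVec_zero] at h10
        rw [← map_mul, inv_mul_cancel₀ h8, map_one, one_mulVec] at h10
        exact hv0 h10
      omega
    intro u
    by_cases hu : ω v u = 0
    · obtain ⟨X, hX⟩ := KSS_ex f (ω v) v 1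
      refine ⟨X, ⟨1, hX⟩, key 1 one_ne_zero X hX, fun i => ?_⟩
      rw [hX, hu, mul_zero, map_zero, zero_mulVec, Pi.zero_apply]
    · obtain ⟨X, hX⟩ := KSS_ex f (ω v) v (ω v u)⁻¹
      refine ⟨X, ⟨_, hX⟩, key _ (inv_ne_zero hu) X hX, fun i => ?_⟩
      rw [hX, inv_mul_cancel₀ hu, map_one, one_mulVec, hv, e0,
        Pi.single_eq_of_ne (Fin.succ_ne_zero i)]

end Pool.Agent.UG
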