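import Pool.Agent.helper54.UG.Spec3

/-!
# Row ug:SCM (MP_a2a22c_al): the commutator
-/

set_option autoImplicit false

namespace Pool.Agent.UG

open Matrix Pool.Agent.H48SL

theorem SCM_vv {n : ℕ} (a χ v φ : Fin n → ℚ) :
    vecMulVec a χ * vecMulVec v φ = (χ ⬝ᵥ v) • vecMulVec a φ := by
  rw [vecMulVec_mul_vecMulVec]
  ext i j
  simp only [vecMulVec_apply, Matrix.smul_apply, Pi.smul_apply, smul_eq_mul]
  try ring

theorem SCM_mulV {n : ℕ} (v φ x : Fin n → ℚ) :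
    vecMulVec v φ *ᵥ x = (φ ⬝ᵥ x) • v := by
  rw [vecMulVec_mulVec]
  ext i
  simp only [Pi.smul_apply, smul_eq_mul, MulOpposite.smul_eq_mul_unop, MulOpposite.unop_op]
  ring

/-- `a ⊗ χ - v ⊗ α` -/
def SCM_Y {n : ℕ} (a χ v α : Fin n → ℚ) : MQ n := vecMulVec a χ - vecMulVec v α

theorem SCM_mul {n : ℕ} {a χ v α χ' α' : Fin n → ℚ} (h1 : χ ⬝ᵥ a = 0) (h2 : χ ⬝ᵥ v = 0)
    (h3 : α ⬝ᵥ v = 0) :
    SCM_Y a χ v α * SCM_Y a χ' v α' = -(α ⬝ᵥ a) • vecMulVec v χ' := by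
  unfold SCM_Y
  rw [sub_mul, mul_sub, mul_sub, SCM_vv, SCM_vv, SCM_vv, SCM_vv, h1, h2, h3, zero_smul, zero_smul,
    zero_smul, sub_zero, sub_zero, zero_sub, neg_smul]

theorem SCM_l {n : ℕ} {a χ v α ψ w : Fin n → ℚ} (h1 : ψ ⬝ᵥ a = 0) (h2 : ψ ⬝ᵥ v = 0) :
    vecMulVec w ψ * SCM_Y a χ v α = 0 := by
  unfold SCM_Y
  rw [mul_sub, SCM_vv, SCM_vv, h1, h2, zero_smul, zero_smul, sub_zero]

theorem SCM_r {n : ℕ} {a χ v α ψ : Fin n → ℚ} (h1 : χ ⬝ᵥ v = 0) (h2 : α ⬝ᵥ v = 0) :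
    SCM_Y a χ v α * vecMulVec v ψ = 0 := by
  unfold SCM_Y
  rw [sub_mul, SCM_vv, SCM_vv, h1, h2, zero_smul, zero_smul, sub_zero]

theorem SCM_exp {n : ℕ} (Z : MQ n) (h : Z * Z * Z = 0) :
    IsNilpotent.exp Z = 1 + Z + (1 / 2 : ℚ) • (Z * Z) := by
  have h2 : Z ^ 3 = 0 := by rw [pow_succ, pow_two, h]
  rw [IsNilpotent.exp_eq_sum h2, Finset.sum_range_succ, Finset.sum_range_succ, Finset.sum_range_one]
  simp [pow_two, Nat.factorial]

theorem SCM_nil {n : ℕ} (Z : MQ n) (h : Z * Z * Z = 0) : IsNilpotent Z :=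
  ⟨3, by rw [pow_succ, pow_two, h]⟩

/-- the product of two exponentials -/
theorem SCM_ee {n : ℕ} (A B : MQ n) (k l : ℚ) (p q s : ℚ) (v χ χ' : Fin n → ℚ)
    (hAA : A * A = p • vecMulVec v χ) (hAB : A * B = q • vecMulVec v χ')
    (hBB : B * B = s • vecMulVec v χ')
    (hvA : A * vecMulVec v χ' = 0) (hχB : vecMulVec v χ * B = 0) (hvv : χ ⬝ᵥ v = 0)
    (hA3 : A * A * A = 0) (hB3 : B * B * B = 0) :
    IsNilpotent.exp (k • A) * IsNilpotent.exp (l • B) =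
      1 + k • A + l • B + (k ^ 2 / 2 * p) • vecMulVec v χ + (l ^ 2 / 2 * s) • vecMulVec v χ'
        + (k * l * q) • vecMulVec v χ' := by
  have h1 : (k • A) * (k • A) * (k • A) = 0 := by
    rw [smul_mul_smul_comm, smul_mul_smul_comm, hA3, smul_zero]
  have h2 : (l • B) * (l • B) * (l • B) = 0 := by
    rw [smul_mul_smul_comm, smul_mul_smul_comm, hB3, smul_zero]
  have h3 : vecMulVec v χ * vecMulVec v χ' = 0 := by rw [SCM_vv, hvv, zero_smul]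
  rw [SCM_exp _ h1, SCM_exp _ h2, smul_mul_smul_comm, smul_mul_smul_comm, hAA, hBB]
  simp only [mul_add, add_mul, mul_one, one_mul, hAB, hvA, hχB, h3, smul_zero,
    add_zero, smul_smul, mul_smul_comm, smul_mul_assoc]
  module

theorem SCM_dot {n : ℕ} {S : MQ n} (hS : Sᵀ = S) (x y : Fin n → ℚ) :
    (S *ᵥ x) ⬝ᵥ y = bf S x y := by
  unfold bf
  rw [dotProduct_mulVec, dotProduct_comm, ← mulVec_transpose, hS, dotProduct_comm]

theorem SCM_symm {n : ℕ} {S : MQ n} (hS : Sᵀ = S) (x y : Fin n → ℚ) : bf S x y = bf S y x := by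
  rw [← SCM_dot hS, dotProduct_comm]
  rfl

theorem SCM_notmul {n : ℕ} {χ φ : Fin n → ℚ} (hχ : χ ≠ 0) (h : ∀ t : ℚ, φ ≠ t • χ) :
    ∃ c : Fin n → ℚ, χ ⬝ᵥ c = 0 ∧ φ ⬝ᵥ c ≠ 0 := by
  by_contra hcon
  push Not at hcon
  obtain ⟨i, hi⟩ : ∃ i, χ i ≠ 0 := by
    by_contra hc
    push Not at hc
    exact hχ (funext hc)
  apply h (φ i / χ i)
  ext j
  have h1 := hcon (χ i • Pi.single j 1 - χ j • Pi.single i 1) (by
    rw [dotProduct_sub, dotProduct_smul, dotProduct_smul, dotProduct_single_one,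
      dotProduct_single_one, smul_eq_mul, smul_eq_mul]
    ring)
  rw [dotProduct_sub, dotProduct_smul, dotProduct_smul, dotProduct_single_one,
      dotProduct_single_one, smul_eq_mul, smul_eq_mul] at h1
  rw [Pi.smul_apply, smul_eq_mul]
  field_simp
  linarith

theorem SCM (hEXC : EXC_stmt) (hEXJ : EXJ_stmt) (hSXP : SXP_stmt) : SCM_stmt := by
  intro n hn S H hS hdet hO hD v a h hv hvv hhH hhv hχh hva hvb haa
  set χ := S *ᵥ v with hχ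
  set χ₁ := χ ᵥ* qg h⁻¹ with hχ₁
  set b := qg h⁻¹ *ᵥ a with hb
  set α := S *ᵥ a with hα
  set β := (S *ᵥ b) ᵥ* qg h⁻¹ with hβ
  have hhv' : qg h⁻¹ *ᵥ v = v := by
    have h1 := congrArg (fun w => qg h⁻¹ *ᵥ w) hhv
    simp only [mulVec_mulVec, qg_inv_mul, one_mulVec] at h1
    exact h1.symm
  have hhb : qg h *ᵥ b = a := by rw [hb, mulVec_mulVec, qg_mul_inv, one_mulVec]
  have hχa : χ ⬝ᵥ a = 0 := by rw [hχ, SCM_dot hS]; exact hva
  have hχv : χ ⬝ᵥ v = 0 := by rw [hχ, SCM_dot hS]; exact hvv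
  have hαv : α ⬝ᵥ v = 0 := by rw [hα, SCM_dot hS, SCM_symm hS]; exact hva
  have hχ₁a : χ₁ ⬝ᵥ a = 0 := by rw [hχ₁, ← dotProduct_mulVec, hχ, SCM_dot hS]; exact hvb
  have hχ₁v : χ₁ ⬝ᵥ v = 0 := by rw [hχ₁, ← dotProduct_mulVec, hhv']; exact hχv
  have hβv : β ⬝ᵥ v = 0 := by
    rw [hβ, ← dotProduct_mulVec, hhv', SCM_dot hS, SCM_symm hS]; exact hvb
  set p := bf S a a with hp
  set r := bf S b b with hr
  have hαa : α ⬝ᵥ a = p := by rw [hα, SCM_dot hS]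
  have hβa : β ⬝ᵥ a = r := by rw [hβ, ← dotProduct_mulVec, ← hb, SCM_dot hS]
  have hX₁ : XX S v a = SCM_Y a χ v α := rfl
  have hX₂ : qg h * XX S v b * qg h⁻¹ = SCM_Y a χ₁ v β := by
    unfold XX SCM_Y
    rw [mul_sub, sub_mul, mul_vecMulVec, mul_vecMulVec, vecMulVec_mul, vecMulVec_mul, hhb, hhv]
  have hA := SCM_mul (χ' := χ) (α' := α) hχa hχv hαv
  have hAB := SCM_mul (χ' := χ₁) (α' := β) hχa hχv hαv
  have hBA := SCM_mul (χ' := χ) (α' := α) hχ₁a hχ₁v hβv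
  have hB := SCM_mul (χ' := χ₁) (α' := β) hχ₁a hχ₁v hβv
  rw [hαa] at hA hAB
  rw [hβa] at hBA hB
  have hA3 : SCM_Y a χ v α * SCM_Y a χ v α * SCM_Y a χ v α = 0 := by
    rw [hA, smul_mul_assoc, SCM_l hχa hχv, smul_zero]
  have hB3 : SCM_Y a χ₁ v β * SCM_Y a χ₁ v β * SCM_Y a χ₁ v β = 0 := by
    rw [hB, smul_mul_assoc, SCM_l hχ₁a hχ₁v, smul_zero]
  have hχ0 : χ ≠ 0 := by
    intro h1
    apply hv
    apply Matrix.eq_zero_of_mulVec_eq_zero hdet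
    rw [← hχ]; exact h1
  have hχχ₁ : ∀ t : ℚ, χ₁ ≠ t • χ := by
    intro t ht
    have h1 : t • (χ ᵥ* qg h) = χ := by
      have h2 : χ₁ ᵥ* qg h = χ := by rw [hχ₁, vecMul_vecMul, qg_inv_mul, vecMul_one]
      rw [ht, smul_vecMul] at h2
      exact h2
    have ht0 : t ≠ 0 := by
      rintro rfl
      rw [zero_smul] at h1
      exact hχ0 h1.symm
    apply hχh t⁻¹
    rw [eq_inv_smul_iff₀ ht0]
    exact h1
  -- the two unipotent elements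
  obtain ⟨-, k₁, hk₁, E₁, hE₁H, hE₁⟩ := hSXP n S H hS hO v a hvv hva
  obtain ⟨hn3, k₂, hk₂, F, hFH, hF⟩ := hSXP n S H hS hO v b hvv hvb
  have hk₁0 : (k₁ : ℚ) ≠ 0 := by exact_mod_cast (Nat.one_le_iff_ne_zero.1 hk₁)
  have hk₂0 : (k₂ : ℚ) ≠ 0 := by exact_mod_cast (Nat.one_le_iff_ne_zero.1 hk₂)
  obtain ⟨E₂, hE₂d⟩ : ∃ E₂ : SLZ n, E₂ = h * F * h⁻¹ := ⟨_, rfl⟩
  have hE₂H : E₂ ∈ H := by
    rw [hE₂d]
    exact H.mul_mem (H.mul_mem hhH hFH) (H.inv_mem hhH)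
  have hnilb : IsNilpotent ((k₂ : ℚ) • XX S v b) := by
    apply SCM_nil
    rw [smul_mul_smul_comm, smul_mul_smul_comm, hn3, smul_zero]
  have hE₂ : qg E₂ = IsNilpotent.exp ((k₂ : ℚ) • SCM_Y a χ₁ v β) := by
    rw [hE₂d, qg_mul, qg_mul, hF, ← (hEXC n h _ hnilb).2, mul_smul_comm, smul_mul_assoc, hX₂]
  rw [hX₁] at hE₁
  have hprod12 := SCM_ee (SCM_Y a χ v α) (SCM_Y a χ₁ v β) k₁ k₂ (-p) (-p) (-r) v χ χ₁ hA hAB hB
    (SCM_r hχv hαv) (SCM_l hχa hχv) hχv hA3 hB3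
  have hprod21 := SCM_ee (SCM_Y a χ₁ v β) (SCM_Y a χ v α) k₂ k₁ (-r) (-r) (-p) v χ₁ χ hB hBA hA
    (SCM_r hχ₁v hβv) (SCM_l hχ₁a hχ₁v) hχ₁v hB3 hA3
  set φ : Fin n → ℚ := ((k₁ : ℚ) * k₂) • (r • χ - p • χ₁) with hφ
  have hvφ : vecMulVec v φ = ((k₁ : ℚ) * k₂ * r) • vecMulVec v χ
      - ((k₁ : ℚ) * k₂ * p) • vecMulVec v χ₁ := by
    ext i j
    simp only [hφ, vecMulVec_apply, Matrix.sub_apply, Matrix.smul_apply, Pi.smul_apply,
      Pi.sub_apply, smul_eq_mul]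
    ring
  have hφa : φ ⬝ᵥ a = 0 := by
    rw [hφ, smul_dotProduct, sub_dotProduct, smul_dotProduct, smul_dotProduct, hχa, hχ₁a]
    simp
  have hφv : φ ⬝ᵥ v = 0 := by
    rw [hφ, smul_dotProduct, sub_dotProduct, smul_dotProduct, smul_dotProduct, hχv, hχ₁v]
    simp
  have hφX : ∀ ψ γ : Fin n → ℚ, vecMulVec v φ * SCM_Y a ψ v γ = 0 := fun ψ γ => SCM_l hφa hφv
  have hφv' : ∀ ψ : Fin n → ℚ, vecMulVec v φ * vecMulVec v ψ = 0 := by
    intro ψ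
    rw [SCM_vv, hφv, zero_smul]
  have hφt : ∀ t : ℚ, φ ≠ t • χ := by
    intro t ht
    apply hχχ₁ (((k₁ : ℚ) * k₂ * r - t) / ((k₁ : ℚ) * k₂ * p))
    have hne : (k₁ : ℚ) * k₂ * p ≠ 0 := mul_ne_zero (mul_ne_zero hk₁0 hk₂0) haa
    ext i
    have h1 := congrFun ht i
    simp only [hφ, Pi.smul_apply, Pi.sub_apply, smul_eq_mul] at h1
    rw [Pi.smul_apply, smul_eq_mul, div_mul_eq_mul_div, eq_div_iff hne]
    linarith
  clear_value φ
  -- the commutator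
  set z := E₁ * E₂ * E₁⁻¹ * E₂⁻¹ with hzd
  have hzH : z ∈ H := H.mul_mem (H.mul_mem (H.mul_mem hE₁H hE₂H) (H.inv_mem hE₁H)) (H.inv_mem hE₂H)
  have hz : qg z = 1 + vecMulVec v φ := by
    have h1 : z * (E₂ * E₁) = E₁ * E₂ := by rw [hzd]; group
    have h2 : (1 + vecMulVec v φ) * qg (E₂ * E₁) = qg (E₁ * E₂) := by
      rw [qg_mul E₂ E₁, qg_mul E₁ E₂, hE₁, hE₂, hprod12, hprod21]
      simp only [add_mul, mul_add, one_mul, mul_one, mul_smul_comm, hφX, hφv', add_zero]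
      rw [hvφ]
      simp only [mul_neg, neg_smul]
      have e1 : ((k₂ : ℚ) * k₁ * r) = (k₁ : ℚ) * k₂ * r := by ring
      rw [e1]
      abel
    have h3 : qg z * qg (E₂ * E₁) = (1 + vecMulVec v φ) * qg (E₂ * E₁) := by
      rw [← qg_mul, h1, h2]
    have h4 := congrArg (fun W => W * qg (E₂ * E₁)⁻¹) h3
    simp only [mul_assoc, qg_mul_inv, mul_one] at h4
    exact h4
  -- the vector `c`
  obtain ⟨c, hχc, hφc⟩ := SCM_notmul hχ0 hφt
  have hvc : bf S v c = 0 := by rw [← SCM_dot hS]; exact hχc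
  obtain ⟨hc3, m, hm, g, hgH, hg⟩ := hSXP n S H hS hO v c hvv hvc
  have hm0 : (m : ℚ) ≠ 0 := by exact_mod_cast (Nat.one_le_iff_ne_zero.1 hm)
  have hc3' : ((m : ℚ) • XX S v c) * ((m : ℚ) • XX S v c) * ((m : ℚ) • XX S v c) = 0 := by
    rw [smul_mul_smul_comm, smul_mul_smul_comm, hc3, smul_zero]
  have hcv : (S *ᵥ c) ⬝ᵥ v = 0 := by rw [SCM_dot hS, SCM_symm hS]; exact hvc
  have hgv : qg g *ᵥ v = v := by
    obtain ⟨-, -, -, -, Je, -⟩ := hEXJ n _ (SCM_nil _ hc3')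
    rw [hg]
    apply Je
    rw [smul_mulVec]
    unfold XX
    rw [sub_mulVec, SCM_mulV, SCM_mulV, ← hχ, hχv, hcv, zero_smul, zero_smul, sub_zero, smul_zero]
  have hφc' : φ ᵥ* XX S v c = (φ ⬝ᵥ c) • χ := by
    unfold XX
    rw [vecMul_sub, vecMul_vecMulVec, vecMul_vecMulVec, hφv, zero_smul, sub_zero]
  have hχc' : χ ᵥ* XX S v c = 0 := by
    unfold XX
    rw [vecMul_sub, vecMul_vecMulVec, vecMul_vecMulVec, hχv, hχc, zero_smul, zero_smul, sub_zero]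
  have hχg : χ ᵥ* qg g = χ := by
    obtain ⟨-, -, -, -, -, Jf, -⟩ := hEXJ n _ (SCM_nil _ hc3')
    rw [hg]
    apply Jf
    rw [vecMul_smul, hχc', smul_zero]
  have hφg : φ ᵥ* qg g = φ + (m * (φ ⬝ᵥ c)) • χ := by
    rw [hg, SCM_exp _ hc3']
    simp only [vecMul_add, vecMul_one, vecMul_smul, ← vecMul_vecMul, smul_vecMul, hφc', hχc',
      smul_zero, add_zero, smul_smul]
  have hφg' : φ ᵥ* qg g⁻¹ = φ - (m * (φ ⬝ᵥ c)) • χ := by
    have h1 : (φ - (m * (φ ⬝ᵥ c)) • χ) ᵥ* qg g = φ := by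
      rw [sub_vecMul, smul_vecMul, hχg, hφg, add_sub_cancel_right]
    have h2 := congrArg (fun w => w ᵥ* qg g⁻¹) h1
    simp only [vecMul_vecMul, qg_mul_inv, vecMul_one] at h2
    exact h2.symm
  -- integral vectors
  obtain ⟨N₁, e₁, hN₁, he₁⟩ := clear_denom v
  obtain ⟨N₂, φ₁, hN₂, hφ₁⟩ := clear_denom φ
  have hN₁q : (N₁ : ℚ) ≠ 0 := by exact_mod_cast hN₁
  have hN₂q : (N₂ : ℚ) ≠ 0 := by exact_mod_cast hN₂
  set M : ℕ := ((N₁ * N₂) ^ 2).toNat with hM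
  have hMc : ((M : ℕ) : ℤ) = (N₁ * N₂) ^ 2 := Int.toNat_of_nonneg (sq_nonneg _)
  have hMq : ((M : ℕ) : ℚ) = ((N₁ : ℚ) * N₂) ^ 2 := by
    have := congrArg (fun x : ℤ => (x : ℚ)) hMc
    push_cast at this
    exact this
  have hMq0 : ((M : ℕ) : ℚ) ≠ 0 := by
    rw [hMq]; exact pow_ne_zero 2 (mul_ne_zero hN₁q hN₂q)
  have hXX : vecMulVec v φ * vecMulVec v φ = 0 := hφv' φ
  have hpow : ∀ M : ℕ, qg (z ^ M) = 1 + (M : ℚ) • vecMulVec v φ := by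
    intro M
    induction M with
    | zero => rw [pow_zero, qg_one, Nat.cast_zero, zero_smul, add_zero]
    | succ M ih =>
      rw [pow_succ, qg_mul, ih, hz, mul_add, mul_one, add_mul, one_mul, smul_mul_assoc, hXX,
        smul_zero, add_zero, add_assoc]
      congr 1
      rw [Nat.cast_succ, add_smul, one_smul]
  set φ₂ : Fin n → ℤ := (N₁ * N₂) • φ₁ with hφ₂
  have hφ₂c : castV φ₂ = ((N₁ : ℚ) * N₂ * N₂) • φ := by
    have h3 : castV φ₂ = ((N₁ : ℚ) * N₂) • castV φ₁ := by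
      ext i
      simp [castV, hφ₂]
    rw [h3, hφ₁, smul_smul]
  have hcast_dot : ∀ a b : Fin n → ℤ, ((a ⬝ᵥ b : ℤ) : ℚ) = castV a ⬝ᵥ castV b := by
    intro a b
    simp [castV, dotProduct]
  have hd : φ₂ ⬝ᵥ e₁ = 0 := by
    have h3 : ((φ₂ ⬝ᵥ e₁ : ℤ) : ℚ) = 0 := by
      rw [hcast_dot, hφ₂c, he₁, smul_dotProduct, dotProduct_smul, hφv, smul_zero, smul_zero]
    exact_mod_cast h3
  have hztv : z ^ M = tv e₁ φ₂ := by
    apply qg_inj
    rw [hpow, qg_tv hd, hφ₂c, he₁]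
    congr 1
    ext i j
    simp only [vecMulVec_apply, Matrix.smul_apply, Pi.smul_apply, smul_eq_mul]
    rw [hMq]
    ring
  obtain ⟨i₀, hi₀⟩ : ∃ i, v i ≠ 0 := by
    by_contra hc
    push Not at hc
    exact hv (funext hc)
  have hvinj : ∀ ψ ψ' : Fin n → ℚ, vecMulVec v ψ = vecMulVec v ψ' → ψ = ψ' := by
    intro ψ ψ' h1
    ext j
    have h2 := congrFun (congrFun h1 i₀) j
    rw [vecMulVec_apply, vecMulVec_apply] at h2
    exact mul_left_cancel₀ hi₀ h2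
  have hφ0 : φ ≠ 0 := by
    intro h1
    apply hφt 0
    rw [zero_smul, h1]
  have hz1 : z ^ M ≠ 1 := by
    intro h3
    have h4 := hpow M
    rw [h3, qg_one] at h4
    have h5 : (M : ℚ) • vecMulVec v φ = 0 := by
      have := h4.symm
      rwa [add_eq_left] at this
    rcases smul_eq_zero.1 h5 with h6 | h6
    · exact hMq0 h6
    · apply hφ0
      apply hvinj
      rw [h6]
      ext i j
      simp [vecMulVec_apply]
  have hsmall : |φ₂ ⬝ᵥ ((g : Matrix (Fin n) (Fin n) ℤ) *ᵥ e₁)| ≤ 2 := by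
    have h3 : ((φ₂ ⬝ᵥ ((g : Matrix (Fin n) (Fin n) ℤ) *ᵥ e₁) : ℤ) : ℚ) = 0 := by
      rw [hcast_dot, ← qg_mulVec_castV, hφ₂c, he₁, mulVec_smul, smul_dotProduct, dotProduct_smul,
        hgv, hφv, smul_zero, smul_zero]
    have h4 : φ₂ ⬝ᵥ ((g : Matrix (Fin n) (Fin n) ℤ) *ᵥ e₁) = 0 := by exact_mod_cast h3
    rw [h4]
    norm_num
  have hconj : qg (g * z ^ M * g⁻¹) = 1 + (M : ℚ) • vecMulVec v (φ - (m * (φ ⬝ᵥ c)) • χ) := by
    rw [qg_mul, qg_mul, hpow, mul_add, add_mul, mul_one, qg_mul_inv, mul_smul_comm, smul_mul_assoc,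
      mul_vecMulVec, vecMulVec_mul, hgv, hφg']
  refine (final_coef (by rw [Fintype.card_fin]; omega) H e₁ φ₂ (z ^ M) g (H.pow_mem hzH M) hgH hz1
    (by rw [hztv]; exact tv_coe hd) hsmall (Or.inl ⟨?_, ?_⟩)).1 hD
  · intro h1
    have h2 := hconj
    rw [h1, hpow, add_right_inj] at h2
    have h3 := hvinj _ _ (smul_right_injective _ hMq0 h2)
    have h4 : (m * (φ ⬝ᵥ c)) • χ = 0 := by
      have h5 := congrArg (fun w => φ - w) h3
      simp only [sub_self, sub_sub_cancel] at h5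
      exact h5.symm
    rcases smul_eq_zero.1 h4 with h6 | h6
    · exact (mul_ne_zero hm0 hφc) h6
    · exact hχ0 h6
  · intro h1
    have h2 := hconj
    rw [h1] at h2
    have h3 : qg (z ^ M)⁻¹ = 1 - (M : ℚ) • vecMulVec v φ := by
      have h4 : (1 - (M : ℚ) • vecMulVec v φ) * qg (z ^ M) = 1 := by
        rw [hpow, sub_mul, one_mul, mul_add, mul_one, smul_mul_smul_comm, hXX, smul_zero, add_zero]
        abel
      have h5 := congrArg (fun W => W * qg (z ^ M)⁻¹) h4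
      simp only [mul_assoc, qg_mul_inv, mul_one, one_mul] at h5
      exact h5.symm
    rw [h3, sub_eq_add_neg, ← smul_neg, add_right_inj] at h2
    have h4 := smul_right_injective _ hMq0 h2
    have h5 : vecMulVec v (-φ) = -vecMulVec v φ := by
      ext i j
      simp [vecMulVec_apply]
    rw [← h5] at h4
    have h6 := hvinj _ _ h4
    apply hφt (m * (φ ⬝ᵥ c) / 2)
    ext i
    have h7 := congrFun h6 i
    simp only [Pi.neg_apply, Pi.sub_apply, Pi.smul_apply, smul_eq_mul] at h7 ⊢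
    linarith

end Pool.Agent.UG
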